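import Pool.Agent.H654R5.PT.Stm

/-!
# The condenser is computable in polynomial time
-/

namespace Pool.Agent.H654R5.PT.PCN

open Pool.Agent.NPC

variable {α : Type} [TEnc α]

/-- powers modulo a number, with the exponent given in unary -/
theorem powMod {b M k : α → ℕ} (hb : NPC.Poly b) (hM : NPC.Poly M) (hM1 : ∀ a, 1 ≤ M a) (hk : UPoly k) :
    NPC.Poly (fun a => b a ^ k a % M a) := by
  obtain ⟨r, hr⟩ := hM.sz_le
  have key : ∀ (a : α) (n : ℕ),
      ((fun acc => acc * b a % M a)^[n] (1 % M a)) = b a ^ n % M a := by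
    intro a n
    induction n with
    | zero => simp
    | succ n ih => rw [Function.iterate_succ_apply', ih, pow_succ, Nat.mod_mul_mod]
  refine (NPC.Poly.iterLen (l := fun a => List.replicate (k a) ()) (s := fun a => 1 % M a)
    (F := fun a acc => acc * b a % M a) hk (NPC.Poly.mod (NPC.Poly.const 1) hM)
    (NPC.Poly.mod (NPC.Poly.mul (NPC.Poly.snd NPC.Poly.id) (hb.comp (NPC.Poly.fst NPC.Poly.id)))
      (hM.comp (NPC.Poly.fst NPC.Poly.id))) (Polynomial.C 2 * r) ?_).congr fun a => ?_
  · intro a n _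
    rw [key]
    have h1 : b a ^ n % M a ≤ M a := (Nat.mod_lt _ (hM1 a)).le
    have h2 := sz_nat_mono_le h1
    have h3 := hr a
    simp only [Polynomial.eval_mul, Polynomial.eval_C]
    omega
  · rw [key, List.length_replicate]

/-- padding in polynomial time -/
theorem padTo_poly {c : α → ℕ} {y : α → List Bool} (hc : UPoly c) (hy : NPC.Poly y) :
    NPC.Poly (fun a => padTo (c a) (y a)) := by
  have h : UPoly (fun a => c a - (y a).length) :=
    UPoly.of_le (NPC.Poly.sub hc.toPoly (NPC.Poly.length hy)) hc (fun a => Nat.sub_le _ _)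
  refine (NPC.Poly.append hy (NPC.Poly.map (F := fun _ _ => false) h (NPC.Poly.const false))).congr
    fun a => ?_
  unfold padTo
  rw [List.map_replicate]

/-- the substitution in polynomial time, for a small exponent -/
theorem frob_poly {N j : α → ℕ} {x : α → List Bool} (hN : UPoly N) (hj : UPoly j) (hx : NPC.Poly x) :
    NPC.Poly (fun a => frob (N a) (j a) (x a)) := by
  have hM : NPC.Poly (fun a => Max.max (N a) 1) := NPC.Poly.max hN.toPoly (NPC.Poly.const 1)
  have hp : NPC.Poly (fun a => ((N a + 1) / 2) ^ j a % Max.max (N a) 1) :=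
    powMod (NPC.Poly.div (NPC.Poly.add hN.toPoly (NPC.Poly.const 1)) (NPC.Poly.const 2)) hM
      (fun a => le_max_right _ _) hj
  refine (NPC.Poly.map (l := fun a => List.range (N a))
    (F := fun a i => (x a).getD (i * (((N a + 1) / 2) ^ j a % Max.max (N a) 1) % N a) false)
    hN.range (NPC.Poly.getD (hx.comp (NPC.Poly.fst NPC.Poly.id))
      (NPC.Poly.mod (NPC.Poly.mul (NPC.Poly.snd NPC.Poly.id) (hp.comp (NPC.Poly.fst NPC.Poly.id)))
        (hN.toPoly.comp (NPC.Poly.fst NPC.Poly.id))) (NPC.Poly.const false))).congr fun a => ?_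
  unfold frob
  apply List.map_congr_left
  intro i hi
  have hi' : i < N a := List.mem_range.mp hi
  have hmax : Max.max (N a) 1 = N a := max_eq_left (by omega)
  rw [hmax, Nat.mul_mod_mod]

theorem PCN_proof (h1 : S_PMO) : S_PCN := by
  intro α _ μ N c h x hμ hN hc hh hx
  have hj : UPoly (fun p : α × ℕ => Min.min p.2 (μ p.1)) :=
    UPoly.of_le (NPC.Poly.min (NPC.Poly.snd NPC.Poly.id) (hμ.toPoly.comp (NPC.Poly.fst NPC.Poly.id)))
      (hμ.comp (NPC.Poly.fst NPC.Poly.id)) (fun p => min_le_right _ _)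
  have hf : NPC.Poly (fun p : α × ℕ => frob (N p.1) (Min.min p.2 (μ p.1)) (x p.1)) :=
    frob_poly (hN.comp (NPC.Poly.fst NPC.Poly.id)) hj (hx.comp (NPC.Poly.fst NPC.Poly.id))
  have hg : NPC.Poly (fun p : α × ℕ => padTo (c p.1)
      (pmod (h p.1) (frob (N p.1) (Min.min p.2 (μ p.1)) (x p.1)))) :=
    padTo_poly (hc.comp (NPC.Poly.fst NPC.Poly.id)) (h1 _ _ (hh.comp (NPC.Poly.fst NPC.Poly.id)) hf)
  refine (NPC.Poly.flatMap (l := fun a => List.range (μ a))
    (F := fun a j => padTo (c a) (pmod (h a) (frob (N a) (Min.min j (μ a)) (x a))))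
    hμ.range hg).congr fun a => ?_
  unfold cond
  rw [List.flatMap_def, List.flatMap_def]
  congr 1
  apply List.map_congr_left
  intro j hj'
  have hj'' : j < μ a := List.mem_range.mp hj'
  have hmin : Min.min j (μ a) = j := min_eq_left (by omega)
  simp only [hmin]

end Pool.Agent.H654R5.PT.PCN
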